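import Pool.Agent.Helper40.EL.D4

/-! Chapter DEGREE, L3 and L4: labels with a value (a function of the point that depends on the label only), their walk,
the cost of the steps, the limit label. -/

set_option autoImplicit false

namespace Pool.Agent.Helper93.DG

open Finset Filter Topology Pool.Agent.Helper69.RK Pool.Agent.Helper31.EC Pool.Agent.Helper40.EL

noncomputable section

/-- a label of a finite space with a function of the point of the space, which is known given the base and the label,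
and which lies in the class `cls` -/
structure VLab (F : FSp) (cls : (F.Ω → ℝ) → Prop) where
  l : FLab F
  f : l.T.Ω → F.Ω → ℝ
  hf : ∀ ω, l.T.μ ω ≠ 0 → cls (f ω)
  hV : ∀ ω ω', l.T.μ ω ≠ 0 → l.T.μ ω' ≠ 0 → l.T.Z ω ω' → l.V ω ω' → f ω = f ω'

namespace VLab

variable {F : FSp} {cls : (F.Ω → ℝ) → Prop}

/-- the mean of `β` of the value at the point itself -/
def val (v : VLab F cls) (β : ℝ → ℝ) : ℝ := ∑ ω, v.l.T.μ ω * β (v.f ω (v.l.p.π ω))

/-- RESAMPLING the point given `x`; the label and its function stay fixed -/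
def rs (v : VLab F cls) (x : FL F) : VLab F cls where
  l := v.l.rs x
  f := fun w => v.f w.1
  hf := fun w hw => v.hf w.1 ((v.l.rsD x).supp w hw).2.1
  hV := fun w w' hw hw' hZ h => v.hV w.1 w'.1 ((v.l.rsD x).supp w hw).2.1 ((v.l.rsD x).supp w' hw').2.1 hZ h

end VLab

/-- A-STEP (L2): after resampling given `x` the mean of `β` drops by at most `D` times the leak plus `e` -/
def AStep (F : FSp) (cls : (F.Ω → ℝ) → Prop) (β : ℝ → ℝ) (x : FL F) (D e : ℝ) : Prop :=
  ∀ v : VLab F cls, v.val β ≤ (v.rs x).val β + D * (v.l.leak x / F.n) + e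

/-- the functions of the class are polynomials of degree `≤ d` of the number `τ` along the cells of `A`, up to the
factor `K` -/
def PolyCls (F : FSp) (A : Setoid F.Ω) (τ : F.Ω → ℝ) (d : ℕ) (K : ℝ) (cls : (F.Ω → ℝ) → Prop) : Prop :=
  ∀ f, cls f → ∀ ω0, F.μ ω0 ≠ 0 → ∃ q : Polynomial ℝ, q.natDegree ≤ d ∧ ∀ ω, F.μ ω ≠ 0 → F.Z ω ω0 → A ω ω0 →
    0 ≤ f ω ∧ f ω ≤ K * |q.eval (τ ω)| ∧ |q.eval (τ ω)| ≤ K * f ω

end

end Pool.Agent.Helper93.DG
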